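import Pool.Agent.Helper22.BNP.P2

/-!
# Project BN, block B5, piece P3: the homomorphism `f01`

With the section `s01 : F 1 → F (k+2)` of `k01` (`k01_s01`): for `α ∈ PA (k+1)` the endomorphism
`f := k01 ∘ α ∘ s01` of `F 1` satisfies `f ∘ k01 = k01 ∘ α` (`homF_ext`; for `i ≥ 2` both sides are
`1`, as `α z_i` is conjugate to `z_i` and `k01 z_i = 1`), and `inner_F1` applies (`w_{k+1} ↦ z_1 z_0`
under `k01`: `k01_w`).  So there is `t` with `k01 (α x) = t k01(x) t⁻¹` for all `x`; `t` is unique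
because `F 1` has trivial center (`F_center` of `IntH.lean` with `k = 0`) and `k01` is onto
(`k01_surj`).  Multiplicativity follows from the uniqueness.
-/

namespace Pool.Agent.Helper38.BN

private lemma f01_ex (k : ℕ) (α : PA (k + 1)) : ∃ t : F 1, ∀ x : F (k + 1),
    k01 (k + 1) (α.1 x) = t * k01 (k + 1) x * t⁻¹ := by
  obtain ⟨hz, hw⟩ := α.2
  have hf : ((k01 (k + 1)).comp ((α.1.toMonoidHom).comp (s01 k))).comp (k01 (k + 1)) =
      (k01 (k + 1)).comp α.1.toMonoidHom := by
    apply homF_ext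
    intro i hi
    rcases Nat.lt_or_ge i 2 with h2 | h2
    · have h3 : k01 (k + 1) (zF i) = zF i := by
        rcases Nat.le_one_iff_eq_zero_or_eq_one.1 (by omega : i ≤ 1) with rfl | rfl
        · exact k01_z0
        · exact k01_z1
      simp only [MonoidHom.comp_apply, h3, s01_z (by omega : i ≤ 1)]
    · obtain ⟨g, hg⟩ := hz i hi
      simp only [MonoidHom.comp_apply, k01_z h2, map_one, MulEquiv.coe_toMonoidHom]
      rw [hg, map_mul, map_mul, map_inv, k01_z h2, mul_one, mul_inv_cancel]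
  have hf' : ∀ x : F (k + 1), ((k01 (k + 1)).comp ((α.1.toMonoidHom).comp (s01 k)))
      (k01 (k + 1) x) = k01 (k + 1) (α.1 x) := fun x => DFunLike.congr_fun hf x
  obtain ⟨t, ht⟩ := inner_F1 ((k01 (k + 1)).comp ((α.1.toMonoidHom).comp (s01 k))) (by
      obtain ⟨g, hg⟩ := hz 0 (by omega)
      refine ⟨k01 (k + 1) g, ?_⟩
      have h := hf' (zF 0)
      rw [k01_z0, hg, map_mul, map_mul, map_inv, k01_z0] at h
      exact h) (by
      obtain ⟨g, hg⟩ := hz 1 (by omega)
      refine ⟨k01 (k + 1) g, ?_⟩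
      have h := hf' (zF 1)
      rw [k01_z1, hg, map_mul, map_mul, map_inv, k01_z1] at h
      exact h) (by
      obtain ⟨g, hg⟩ := hw
      refine ⟨k01 (k + 1) g, ?_⟩
      have h := hf' (wF (k + 1))
      rw [k01_w, hg, map_mul (k01 (k + 1)), map_mul (k01 (k + 1)), map_inv, k01_w] at h
      exact h)
  refine ⟨t, fun x => ?_⟩
  rw [← hf', ht]

private lemma f01_uniq {k : ℕ} {t t' : F 1} (h : ∀ x : F (k + 1),
    t * k01 (k + 1) x * t⁻¹ = t' * k01 (k + 1) x * t'⁻¹) : t = t' := by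
  have h1 : t'⁻¹ * t = 1 := by
    apply F_center (k := 0)
    intro y
    obtain ⟨x, rfl⟩ := k01_surj k y
    have h2 := h x
    calc t'⁻¹ * t * k01 (k + 1) x = t'⁻¹ * (t * k01 (k + 1) x * t⁻¹) * t := by group
      _ = t'⁻¹ * (t' * k01 (k + 1) x * t'⁻¹) * t := by rw [h2]
      _ = k01 (k + 1) x * (t'⁻¹ * t) := by group
  calc t = t' * (t'⁻¹ * t) := by group
    _ = t' := by rw [h1, mul_one]

/-- block B5: forget all strands except `0` and `1` (the index is shifted) -/
theorem exists_f01 (k : ℕ) : ∃ f : PA (k + 1) →* F 1, ∀ (α : PA (k + 1)) (x : F (k + 1)),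
    k01 (k + 1) (α.1 x) = f α * k01 (k + 1) x * (f α)⁻¹ := by
  choose t ht using f01_ex k
  refine ⟨{ toFun := t, map_one' := ?_, map_mul' := ?_ }, ht⟩
  · apply f01_uniq (k := k)
    intro x
    rw [← ht]
    simp
  · intro α β
    apply f01_uniq (k := k)
    intro x
    rw [← ht, mul_inv_rev]
    have h1 : (α * β).1 x = α.1 (β.1 x) := rfl
    rw [h1, ht, ht]
    group

/-- forget all strands except `0` and `1` (the index is shifted) -/
noncomputable def f01 (k : ℕ) : PA (k + 1) →* F 1 := Classical.choose (exists_f01 k)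

theorem f01_spec {k : ℕ} (α : PA (k + 1)) (x : F (k + 1)) :
    k01 (k + 1) (α.1 x) = f01 k α * k01 (k + 1) x * (f01 k α)⁻¹ :=
  Classical.choose_spec (exists_f01 k) α x

end Pool.Agent.Helper38.BN
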