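import Pool.Agent.Helper22.BNP.P0

/-!
# Project BN, block B5, piece P4: the action of the pure subgroup is by pure automorphisms
-/

namespace Pool.Agent.Helper38.BN

private theorem chiA_w_below {k j : ℕ} (hj : j < k) :
    ∀ p, p < j → chiA j (wF p : F k) = wF p := by
  intro p
  induction p with
  | zero =>
    intro h
    change chiA j (zF 0 : F k) = zF 0
    rw [chiA_z hj (by omega)]
    simp [chiC, show (0 : ℕ) ≠ j by omega]
  | succ p ih =>
    intro h
    change chiA j (zF (p + 1) * wF p : F k) = zF (p + 1) * wF p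
    rw [map_mul, ih (by omega), chiA_z hj (by omega)]
    simp [chiC, show p + 1 ≠ j by omega, show p ≠ j by omega]

private theorem chiA_w_next {k j : ℕ} (hj : j < k) :
    chiA j (wF (j + 1) : F k) = wF (j + 1) := by
  have h1 : (chiA j (zF (j + 1)) : F k) = zF j := by
    rw [chiA_z hj (by omega)]; simp [chiC]
  have h2 : (chiA j (zF j) : F k) = (zF j)⁻¹ * zF (j + 1) * zF j := by
    rw [chiA_z hj (by omega)]; simp [chiC]
  rcases Nat.eq_zero_or_pos j with rfl | h0
  · change chiA 0 (zF (0 + 1) * zF 0 : F k) = zF (0 + 1) * zF 0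
    rw [map_mul, h1, h2]
    group
  · obtain ⟨i, rfl⟩ : ∃ i, j = i + 1 := ⟨j - 1, by omega⟩
    change chiA (i + 1) (zF (i + 1 + 1) * (zF (i + 1) * wF i) : F k) =
      zF (i + 1 + 1) * (zF (i + 1) * wF i)
    rw [map_mul, map_mul, chiA_w_below hj i (by omega), h1, h2]
    group

private theorem chiA_w_above {k j : ℕ} (hj : j < k) :
    ∀ p, j + 1 ≤ p → p ≤ k → chiA j (wF p : F k) = wF p := by
  intro p hp
  induction p, hp using Nat.le_induction with
  | base => intro _; exact chiA_w_next hj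
  | succ p hp ih =>
    intro h
    change chiA j (zF (p + 1) * wF p : F k) = zF (p + 1) * wF p
    rw [map_mul, ih (by omega), chiA_z hj (by omega)]
    simp [chiC, show p + 1 ≠ j by omega, show p ≠ j by omega]

/-- piece P4a: `chiA j` fixes `z_{j+1} z_j`, hence `w` (show: `chiA j (wF p) = wF p` for
`p ≠ j`, `p ≤ k`, by induction on `p`) -/
theorem chiA_w {k j : ℕ} (hj : j < k) : chiA j (wF k : F k) = wF k :=
  chiA_w_above hj k (by omega) le_rfl

/-- piece P4b: `Chi h w ~ w` for all `h` (closure induction over `closure_H`, or: the subgroup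
of the `α` which map `w` to a conjugate; `d` acts by conjugation with `z_0`) -/
theorem chi_w {k : ℕ} (h : HB k) : ∃ g, Chi k h (wF k) = g * wF k * g⁻¹ := by
  have hmem : h ∈ Subgroup.closure ({dH} ∪ aH '' {j | j < k} : Set (HB k)) := by
    rw [closure_H]; exact Subgroup.mem_top h
  induction hmem using Subgroup.closure_induction with
  | mem x hx =>
    rcases hx with hx | ⟨j, hj, rfl⟩
    · rw [Set.mem_singleton_iff] at hx
      subst hx
      refine ⟨zF 0, ?_⟩
      unfold Chi
      rw [liftH_d]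
      rfl
    · refine ⟨1, ?_⟩
      unfold Chi
      rw [liftH_a _ hj, chiA_w hj]
      simp
  | one => exact ⟨1, by simp⟩
  | mul x y _ _ hx hy =>
    obtain ⟨g, hg⟩ := hx
    obtain ⟨g', hg'⟩ := hy
    refine ⟨Chi k x g' * g, ?_⟩
    rw [map_mul, MulAut.mul_apply, hg', map_mul, map_mul, map_inv, hg]
    group
  | inv x _ hx =>
    obtain ⟨g, hg⟩ := hx
    rw [map_inv]
    generalize Chi k x = α at hg
    have h1 : wF k = α⁻¹ (g * wF k * g⁻¹) := by rw [← hg, MulAut.inv_apply_self]
    refine ⟨α⁻¹ g⁻¹, ?_⟩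
    rw [map_mul, map_mul, map_inv] at h1
    rw [map_inv]
    conv_rhs => rw [h1]
    group

/-- the property of `chi_z` -/
private def ZC (k : ℕ) (h : HB k) : Prop := ∀ i, i ≤ k →
    piH k h i ≤ k ∧ ∃ g, Chi k h (zF i) = g * zF (piH k h i) * g⁻¹

private lemma ZC_one (k : ℕ) : ZC k 1 := by
  intro i hi
  rw [map_one, map_one]
  exact ⟨hi, 1, by simp⟩

private lemma ZC_mul {k : ℕ} {h h' : HB k} (H : ZC k h) (H' : ZC k h') : ZC k (h * h') := by
  intro i hi
  obtain ⟨h1, g1, e1⟩ := H' i hi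
  obtain ⟨h2, g2, e2⟩ := H _ h1
  refine ⟨by rw [map_mul]; exact h2, Chi k h g1 * g2, ?_⟩
  rw [map_mul, map_mul, MulAut.mul_apply, e1, map_mul, map_mul, map_inv, e2]
  rw [Equiv.Perm.mul_apply]
  group

private lemma ZC_inv {k : ℕ} {h : HB k} (H : ZC k h) : ZC k h⁻¹ := by
  intro i hi
  -- the permutation is onto `{0, …, k}`
  have hinj : Function.Injective (fun a : Fin (k + 1) =>
      (⟨piH k h a, by have := (H a (by omega)).1; omega⟩ : Fin (k + 1))) := by
    intro a b hab
    have h1 := congrArg Fin.val hab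
    exact Fin.ext ((piH k h).injective h1)
  obtain ⟨a, ha⟩ := (Finite.injective_iff_surjective.1 hinj) ⟨i, by omega⟩
  have ha' : piH k h a = i := congrArg Fin.val ha
  obtain ⟨-, g, hg⟩ := H a (by omega)
  have e1 : piH k h⁻¹ i = a := by
    rw [map_inv, Equiv.Perm.inv_eq_iff_eq, ha']
  refine ⟨by rw [e1]; omega, (Chi k h)⁻¹ g⁻¹, ?_⟩
  rw [e1, map_inv (Chi k)]
  rw [ha'] at hg
  have h2 : (zF (a : ℕ) : F k) = (Chi k h)⁻¹ (g * zF i * g⁻¹) := by
    rw [← hg, MulAut.inv_apply_self]
  rw [map_mul, map_mul] at h2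
  rw [h2, map_inv]
  group

private lemma ZC_d (k : ℕ) : ZC k dH := by
  intro i hi
  have h1 : piH k dH = 1 := liftH_d _
  have h2 : Chi k dH = chiD := liftH_d _
  rw [h1, h2]
  exact ⟨hi, zF 0, by simp [chiD, MulAut.conj_apply]⟩

private lemma ZC_a {k j : ℕ} (hj : j < k) : ZC k (aH j) := by
  intro i hi
  have h1 : piH k (aH j) = Equiv.swap j (j + 1) := liftH_a _ hj
  have h2 : Chi k (aH j) = chiA j := liftH_a _ hj
  rw [h1, h2, chiA_z hj hi]
  unfold chiC
  by_cases e1 : i = j
  · subst e1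
    rw [if_pos rfl, Equiv.swap_apply_left]
    exact ⟨by omega, (zF i)⁻¹, by rw [inv_inv]⟩
  · rw [if_neg e1]
    by_cases e2 : i = j + 1
    · subst e2
      rw [if_pos rfl, Equiv.swap_apply_right]
      exact ⟨by omega, 1, by simp⟩
    · rw [if_neg e2, Equiv.swap_apply_of_ne_of_ne e1 e2]
      exact ⟨hi, 1, by simp⟩

private lemma ZC_all {k : ℕ} (h : HB k) : ZC k h := by
  have hm : h ∈ Subgroup.closure ({dH} ∪ aH '' {j | j < k} : Set (HB k)) := by
    rw [closure_H]; exact Subgroup.mem_top h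
  induction hm using Subgroup.closure_induction with
  | mem x hx =>
    rcases hx with hx | ⟨j, hj, hx⟩
    · rw [Set.mem_singleton_iff.1 hx]
      exact ZC_d k
    · rw [← hx]
      exact ZC_a hj
  | one => exact ZC_one k
  | mul x y _ _ hx hy => exact ZC_mul hx hy
  | inv x _ hx => exact ZC_inv hx

/-- piece P4c: `Chi h z_i ~ z_{π(h) i}` for all `h` (closure induction; `π(a_j)` is the
transposition of `j` and `j+1`, `π(d) = 1`; for inverses of generators: apply the statement for
the generator at the index `π(g)⁻¹ i`) -/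
theorem chi_z {k : ℕ} (h : HB k) (i : ℕ) (hi : i ≤ k) :
    piH k h i ≤ k ∧ ∃ g, Chi k h (zF i) = g * zF (piH k h i) * g⁻¹ :=
  ZC_all h i hi

/-- block B5: the action of the pure subgroup is by pure automorphisms -/
theorem chi_PA {k : ℕ} {h : HB k} (hh : h ∈ PH k) : Chi k h ∈ PA k := by
  have hp : piH k h = 1 := hh
  refine ⟨fun i hi => ?_, chi_w h⟩
  obtain ⟨-, g, hg⟩ := chi_z h i hi
  rw [hp] at hg
  exact ⟨g, hg⟩

/-- the homomorphism `PH k → PA k` -/
def cP (k : ℕ) : PH k →* PA k where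
  toFun h := ⟨Chi k h.1, chi_PA h.2⟩
  map_one' := Subtype.ext (map_one (Chi k))
  map_mul' x y := Subtype.ext (map_mul (Chi k) x.1 y.1)

end Pool.Agent.Helper38.BN
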