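import Pool.Agent.Helper22.BNP.P1
import Pool.Agent.Helper22.BNP.P3
import Pool.Agent.Helper22.BNP.P4

/-!
# Project BN, block B5, pieces P5 and P6: values of `Th` and `f01`
-/

namespace Pool.Agent.Helper38.BN

/-- piece P5: inner automorphisms (`Th_spec` with `g = x`; `kf` is onto) -/
theorem Th_conj {k : ℕ} {α : PA (k + 1)} {x : F (k + 1)} (h : α.1 = MulAut.conj x) :
    Th k α = 1 := by
  apply Subtype.ext
  ext y
  obtain ⟨y, rfl⟩ := kf_surj k y
  rw [Th_spec α x (by rw [h, MulAut.conj_apply]) y, h, MulAut.conj_apply, map_mul, map_mul, map_inv,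
    OneMemClass.coe_one, MulAut.one_apply]
  group

/-- piece P5: `f01_spec`, `k01_surj`, and `F 1` has trivial center (`F_center`) -/
theorem f01_conj {k : ℕ} {α : PA (k + 1)} {x : F (k + 1)} (h : α.1 = MulAut.conj x) :
    f01 k α = k01 (k + 1) x := by
  have h1 : (f01 k α)⁻¹ * k01 (k + 1) x = 1 := by
    refine F_center (k := 0) fun z => ?_
    obtain ⟨y, rfl⟩ := k01_surj k z
    have h2 := f01_spec α y
    rw [h, MulAut.conj_apply, map_mul, map_mul, map_inv] at h2
    calc (f01 k α)⁻¹ * k01 (k + 1) x * k01 (k + 1) y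
        = (f01 k α)⁻¹ * (k01 (k + 1) x * k01 (k + 1) y * (k01 (k + 1) x)⁻¹) * k01 (k + 1) x := by
          group
      _ = k01 (k + 1) y * ((f01 k α)⁻¹ * k01 (k + 1) x) := by
          rw [h2]; group
  exact (inv_mul_eq_one.1 h1)

private lemma chi_iota_a {k j : ℕ} (hj : j < k) : ∃ g : F (k + 1),
    Chi (k + 1) (iota k (aH j)) (zF 0) = g * zF 0 * g⁻¹ ∧
    ∀ x, kf k (Chi (k + 1) (iota k (aH j)) x) = kf k g * Chi k (aH j) (kf k x) * (kf k g)⁻¹ := by
  have e1 : Chi (k + 1) (iota k (aH j)) = chiA (j + 1) := by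
    unfold iota
    rw [liftH_a _ hj]
    unfold Chi
    rw [liftH_a _ (by omega)]
  have e2 : Chi k (aH j) = chiA j := by
    unfold Chi
    rw [liftH_a _ hj]
  rw [e1, e2]
  refine ⟨1, ?_, fun x => ?_⟩
  · rw [chiA_z (by omega) (by omega)]
    unfold chiC
    rw [if_neg (by omega), if_neg (by omega)]
    simp
  · rw [map_one, inv_one, mul_one, one_mul]
    have key : (kf k).comp (chiA (j + 1) : MulAut (F (k + 1))).toMonoidHom =
        (chiA j : MulAut (F k)).toMonoidHom.comp (kf k) := by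
      refine homF_ext fun i hi => ?_
      change kf k (chiA (j + 1) (zF i)) = chiA j (kf k (zF i))
      rw [chiA_z (by omega) hi]
      rcases Nat.eq_zero_or_pos i with rfl | h0
      · unfold chiC
        rw [if_neg (by omega), if_neg (by omega), kf_z0, map_one]
      · obtain ⟨i, rfl⟩ : ∃ i', i = i' + 1 := ⟨i - 1, by omega⟩
        rw [kf_zs (by omega), chiA_z hj (by omega)]
        unfold chiC
        by_cases h1 : i = j
        · subst h1
          rw [if_pos rfl, if_pos rfl, map_mul, map_mul, map_inv, kf_zs (by omega),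
            kf_zs (by omega)]
        · rw [if_neg (by omega), if_neg h1]
          by_cases h2 : i = j + 1
          · subst h2
            rw [if_pos rfl, if_pos rfl, kf_zs (by omega)]
          · rw [if_neg (by omega), if_neg h2, kf_zs (by omega)]
    exact DFunLike.congr_fun key x

private lemma chi_iota_d {k : ℕ} : ∃ g : F (k + 1),
    Chi (k + 1) (iota k dH) (zF 0) = g * zF 0 * g⁻¹ ∧
    ∀ x, kf k (Chi (k + 1) (iota k dH) x) = kf k g * Chi k dH (kf k x) * (kf k g)⁻¹ := by
  have e1 : Chi (k + 1) (iota k dH) = chiA 0 * chiA 0 := by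
    unfold iota
    rw [liftH_d, map_mul]
    unfold Chi
    rw [liftH_a _ (by omega)]
  have e2 : Chi k dH = chiD := by
    unfold Chi
    rw [liftH_d]
  have a0 : chiA 0 (zF 0 : F (k + 1)) = (zF 0)⁻¹ * zF 1 * zF 0 := by
    rw [chiA_z (by omega) (by omega)]
    rfl
  have a1 : chiA 0 (zF 1 : F (k + 1)) = zF 0 := by
    rw [chiA_z (by omega) (by omega)]
    rfl
  have hz0 : chiA 0 (chiA 0 (zF 0 : F (k + 1))) = (zF 1 * zF 0)⁻¹ * zF 0 * (zF 1 * zF 0) := by
    rw [a0, map_mul, map_mul, map_inv, a0, a1]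
    group
  have hz1 : chiA 0 (chiA 0 (zF 1 : F (k + 1))) = (zF 0)⁻¹ * zF 1 * zF 0 := by
    rw [a1, a0]
  have kz1 : kf k (zF 1) = zF 0 := kf_zs (k := k) (i := 0) (by omega)
  rw [e1, e2]
  refine ⟨(zF 1 * zF 0)⁻¹, ?_, fun x => ?_⟩
  · rw [MulAut.mul_apply, hz0, inv_inv]
  · have key : (kf k).comp (chiA 0 * chiA 0 : MulAut (F (k + 1))).toMonoidHom = kf k := by
      refine homF_ext fun i hi => ?_
      change kf k (chiA 0 (chiA 0 (zF i))) = kf k (zF i)
      rcases Nat.eq_zero_or_pos i with rfl | h0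
      · rw [hz0, map_mul, map_mul, map_inv, map_mul, kf_z0]
        group
      · by_cases h1 : i = 1
        · subst h1
          rw [hz1, map_mul, map_mul, map_inv, kf_z0]
          group
        · have h2 : chiA 0 (zF i : F (k + 1)) = zF i := by
            rw [chiA_z (by omega) hi]
            unfold chiC
            rw [if_neg (by omega), if_neg (by omega)]
          rw [h2, h2]
    have h1 : kf k ((chiA 0 * chiA 0 : MulAut (F (k + 1))) x) = kf k x :=
      DFunLike.congr_fun key x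
    rw [h1, map_inv, map_mul, kz1, kf_z0, mul_one, inv_inv]
    unfold chiD
    rw [MulAut.conj_apply]
    group

/-- piece P6a: closure induction over the generators of `HB k` (`closure_H`).
`ι a_j = a_{j+1}`: `g = 1` (both sides are homomorphisms in `x`: `homF_ext`).  `ι d = a_0²`:
`z_0, z_1` are conjugated with `(z_1 z_0)⁻¹`, the other `z_i` are fixed; `g = (z_1 z_0)⁻¹`,
`kf g = z_0⁻¹`; check `z_1` (both sides `z_0`) and `z_{j+1}`, `j ≥ 1` (both sides `z_j`).
Products and inverses: as in the proof that `Th` is a homomorphism. -/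
theorem chi_iota {k : ℕ} (h : HB k) : ∃ g : F (k + 1),
    Chi (k + 1) (iota k h) (zF 0) = g * zF 0 * g⁻¹ ∧
    ∀ x, kf k (Chi (k + 1) (iota k h) x) = kf k g * Chi k h (kf k x) * (kf k g)⁻¹ := by
  have hh : h ∈ Subgroup.closure ({dH} ∪ aH '' {j | j < k} : Set (HB k)) := by
    rw [closure_H]; trivial
  induction hh using Subgroup.closure_induction with
  | mem h hh =>
    rcases hh with rfl | ⟨j, hj, rfl⟩
    · exact chi_iota_d
    · exact chi_iota_a hj
  | one => exact ⟨1, by simp, fun x => by simp⟩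
  | mul h h' _ _ ih ih' =>
    obtain ⟨g, hg, hx⟩ := ih
    obtain ⟨g', hg', hx'⟩ := ih'
    refine ⟨Chi (k + 1) (iota k h) g' * g, ?_, fun x => ?_⟩
    · rw [map_mul, map_mul, MulAut.mul_apply, hg', map_mul, map_mul, map_inv, hg]
      group
    · rw [map_mul, map_mul, MulAut.mul_apply, hx, hx', map_mul, map_mul, map_mul (kf k), hx g',
        map_inv, map_mul (Chi k), MulAut.mul_apply]
      group
  | inv h _ ih =>
    obtain ⟨g, hg, hx⟩ := ih
    have hk : ∀ y, kf k ((Chi (k + 1) (iota k h))⁻¹ y) =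
        (Chi k h)⁻¹ (kf k g)⁻¹ * (Chi k h)⁻¹ (kf k y) * (Chi k h)⁻¹ (kf k g) := by
      intro y
      have h1 := hx ((Chi (k + 1) (iota k h))⁻¹ y)
      rw [MulAut.apply_inv_self] at h1
      rw [h1, map_mul, map_mul, MulAut.inv_apply_self, map_inv]
      group
    have hkg : kf k ((Chi (k + 1) (iota k h))⁻¹ g) = (Chi k h)⁻¹ (kf k g) := by
      rw [hk g, map_inv]
      group
    refine ⟨(Chi (k + 1) (iota k h))⁻¹ g⁻¹, ?_, fun x => ?_⟩
    · have h1 : (zF 0 : F (k + 1)) = (Chi (k + 1) (iota k h))⁻¹ (g * zF 0 * g⁻¹) := by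
        rw [← hg, MulAut.inv_apply_self]
      rw [map_inv, map_inv]
      rw [map_mul, map_mul] at h1
      conv_rhs => rw [h1]
      rw [map_inv]
      group
    · rw [map_inv (iota k), map_inv (Chi (k + 1)), map_inv (Chi k), hk x,
        map_inv ((Chi (k + 1) (iota k h))⁻¹), map_inv (kf k), hkg, map_inv]
      group

/-- block B5: `Th` on the image of `ι` -/
theorem Th_iota {k : ℕ} {h : HB k} {α : PA (k + 1)} (hα : α.1 = Chi (k + 1) (iota k h)) :
    (Th k α).1 = Chi k h := by
  obtain ⟨g, hg, hx⟩ := chi_iota h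
  ext y
  obtain ⟨x, rfl⟩ := kf_surj k y
  rw [Th_spec α g (by rw [hα]; exact hg) x, hα, hx x]
  group

end Pool.Agent.Helper38.BN
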