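import Pool.Agent.Helper38.BN.IntH0
import Pool.Agent.Helper7.AG.Fmal

/-!
# Project BN, block B5: basic facts on the homomorphisms `kf` and `k01`
-/

namespace Pool.Agent.Helper38.BN

/-- the pure automorphisms of `F k`: they map every `z_i` and `w = z_k ⋯ z_0` to a conjugate -/
def PAc (k : ℕ) : Set (MulAut (F k)) :=
  {α | (∀ i, i ≤ k → ∃ g, α (zF i) = g * zF i * g⁻¹) ∧ ∃ g, α (wF k) = g * wF k * g⁻¹}

theorem PAc_mul {k : ℕ} {α β : MulAut (F k)} (hα : α ∈ PAc k) (hβ : β ∈ PAc k) :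
    α * β ∈ PAc k := by
  refine ⟨fun i hi => ?_, ?_⟩
  · obtain ⟨g, hg⟩ := hα.1 i hi
    obtain ⟨g', hg'⟩ := hβ.1 i hi
    refine ⟨α g' * g, ?_⟩
    rw [MulAut.mul_apply, hg', map_mul, map_mul, map_inv, hg]; group
  · obtain ⟨g, hg⟩ := hα.2
    obtain ⟨g', hg'⟩ := hβ.2
    refine ⟨α g' * g, ?_⟩
    rw [MulAut.mul_apply, hg', map_mul, map_mul, map_inv, hg]; group

theorem PAc_inv {k : ℕ} {α : MulAut (F k)} (hα : α ∈ PAc k) : α⁻¹ ∈ PAc k := by
  have key : ∀ x g : F k, α x = g * x * g⁻¹ → α⁻¹ x = α⁻¹ g⁻¹ * x * (α⁻¹ g⁻¹)⁻¹ := by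
    intro x g h
    have h1 : x = α⁻¹ (g * x * g⁻¹) := by rw [← h, MulAut.inv_apply_self]
    rw [map_mul, map_mul, map_inv] at h1
    rw [map_inv]
    conv_rhs => rw [h1]
    group
  refine ⟨fun i hi => ?_, ?_⟩
  · obtain ⟨g, hg⟩ := hα.1 i hi
    exact ⟨_, key _ _ hg⟩
  · obtain ⟨g, hg⟩ := hα.2
    exact ⟨_, key _ _ hg⟩

/-- the group of pure automorphisms of `F k` -/
def PA (k : ℕ) : Subgroup (MulAut (F k)) where
  carrier := PAc k
  mul_mem' := PAc_mul
  one_mem' := ⟨fun i _ => ⟨1, by simp⟩, ⟨1, by simp⟩⟩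
  inv_mem' := PAc_inv

/-- the homomorphism `F (k+1) → F k`, `z_0 ↦ 1`, `z_{i+1} ↦ z_i` -/
def kf (k : ℕ) : F (k + 1) →* F k := liftF (fun i => if i = 0 then 1 else zF (i - 1))

/-- the homomorphism `F k → F 1` which kills `z_2, z_3, …` -/
def k01 (k : ℕ) : F k →* F 1 := liftF (fun i => if i ≤ 1 then zF i else 1)

/-- the section `F k → F (k+1)`, `z_i ↦ z_{i+1}` of `kf` -/
def sf (k : ℕ) : F k →* F (k + 1) := liftF (fun i => zF (i + 1))

/-- the section `F 1 → F (k+1)`, `z_i ↦ z_i` of `k01` -/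
def s01 (k : ℕ) : F 1 →* F (k + 1) := liftF (fun i => zF i)

section
variable {k : ℕ}

lemma kf_z0 : kf k (zF 0) = 1 := by
  unfold kf; rw [liftF_z _ (by omega)]; simp

lemma kf_zs {i : ℕ} (hi : i ≤ k) : kf k (zF (i + 1)) = zF i := by
  unfold kf; rw [liftF_z _ (by omega)]; simp

lemma kf_w {j : ℕ} (hj : j ≤ k) : kf k (wF (j + 1)) = wF j := by
  induction j with
  | zero => simp [wF, kf_z0, kf_zs (k := k) (i := 0) (by omega)]
  | succ j ih =>
    have h := ih (by omega)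
    change kf k (zF (j + 1 + 1) * wF (j + 1)) = zF (j + 1) * wF j
    rw [map_mul, h, kf_zs hj]

lemma sf_z {i : ℕ} (hi : i ≤ k) : sf k (zF i) = zF (i + 1) := liftF_z _ hi

lemma kf_sf (x : F k) : kf k (sf k x) = x := by
  have h : (kf k).comp (sf k) = MonoidHom.id (F k) := homF_ext fun i hi => by
    rw [MonoidHom.comp_apply, sf_z hi, kf_zs hi, MonoidHom.id_apply]
  exact DFunLike.congr_fun h x

lemma kf_surj (k : ℕ) : Function.Surjective (kf k) := fun x => ⟨sf k x, kf_sf x⟩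

lemma k01_z0 : k01 k (zF 0) = zF 0 := by
  unfold k01; rw [liftF_z _ (by omega)]; simp

lemma k01_z1 : k01 (k + 1) (zF 1) = zF 1 := by
  unfold k01; rw [liftF_z _ (by omega)]; simp

lemma k01_z {i : ℕ} (h : 2 ≤ i) : k01 k (zF i) = 1 := by
  rcases Nat.lt_or_ge i (k + 1) with h1 | h1
  · unfold k01; rw [liftF_z _ (by omega), if_neg (by omega)]
  · rw [zF_ge h1, map_one]

lemma k01_w (j : ℕ) : k01 (k + 1) (wF (j + 1)) = zF 1 * zF 0 := by
  induction j with
  | zero => simp [wF, k01_z0, k01_z1]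
  | succ j ih =>
    change k01 (k + 1) (zF (j + 1 + 1) * wF (j + 1)) = _
    rw [map_mul, ih, k01_z (by omega), one_mul]

lemma s01_z {i : ℕ} (hi : i ≤ 1) : s01 k (zF i) = zF i := liftF_z _ hi

lemma k01_s01 (x : F 1) : k01 (k + 1) (s01 k x) = x := by
  have h : (k01 (k + 1)).comp (s01 k) = MonoidHom.id (F 1) := homF_ext fun i hi => by
    rw [MonoidHom.comp_apply, s01_z hi, MonoidHom.id_apply]
    rcases Nat.le_one_iff_eq_zero_or_eq_one.1 hi with rfl | rfl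
    · exact k01_z0
    · exact k01_z1
  exact DFunLike.congr_fun h x

lemma k01_surj (k : ℕ) : Function.Surjective (k01 (k + 1)) := fun x => ⟨s01 k x, k01_s01 x⟩

/-- an element which commutes with a generator is a power of it -/
lemma zF_comm {x : F k} {i : ℕ} (hi : i ≤ k) (h : x * zF i = zF i * x) :
    ∃ n : ℤ, x = zF i ^ n := by
  rw [zF_of (by omega : i < k + 1)] at h ⊢
  exact Pool.Agent.Helper7.AG.commute_of_pow _ (one_ne_zero) (by simpa using h)

/-- the powers of `z_i` -/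
lemma kf_z0_zpow (n : ℤ) : kf k (zF 0 ^ n) = 1 := by rw [map_zpow, kf_z0, one_zpow]

end

end Pool.Agent.Helper38.BN
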