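import Pool.Agent.Helper22.BNP.P0

/-!
# Project BN, block B5, piece P1: the homomorphism which forgets the base point

Section `sf : F k → F (k+1)`, `kf ∘ sf = id`.  For `α ∈ PA (k+1)` put `ᾱ := kf ∘ α ∘ sf`; then
`ᾱ ∘ kf = kf ∘ α` (both are homomorphisms on `F (k+1)`: `homF_ext`; at `z_0`: `kf (α z_0) = 1`, as
`α z_0` is a conjugate of `z_0`; at `z_{i+1}`: definition).  `ᾱ` is multiplicative in `α` and `1̄ =
id`, so it is an automorphism with the inverse `(α⁻¹)̄`.  If `α z_0 = g z_0 g⁻¹` then `ḡ := kf g`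
does not depend on `g`: two choices differ by an element which commutes with `z_0`, so by a power of
`z_0` (`zF_comm`), and `kf z_0 = 1`.  Put `T α := conj(ḡ)⁻¹ ∘ ᾱ`, so that
`T α (kf x) = ḡ⁻¹ (kf (α x)) ḡ`.  For `α, β`: `αβ z_0 = α(g_b) g_a z_0 (..)⁻¹`, so
`T(αβ)(kf x) = kf(α(g_b) g_a)⁻¹ kf(αβ x) kf(α(g_b) g_a)
 = ḡ_a⁻¹ ᾱ(ḡ_b)⁻¹ ᾱ(kf(β x)) ᾱ(ḡ_b) ḡ_a = T α (T β (kf x))`; `kf` is onto (`kf_surj`).
`T α ∈ PA k`: `kf` maps conjugates to conjugates, `kf z_{i+1} = z_i`, `kf w_{k+1} = w_k` (`kf_w`).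
-/

namespace Pool.Agent.Helper38.BN

section
variable {k : ℕ}

/-- `ᾱ = kf ∘ α ∘ sf` -/
private def barH (k : ℕ) (α : MulAut (F (k + 1))) : F k →* F k :=
  (kf k).comp (α.toMonoidHom.comp (sf k))

private lemma barH_kf {α : MulAut (F (k + 1))} (h : α (zF 0) = 1 ∨ ∃ g, α (zF 0) = g * zF 0 * g⁻¹)
    (x : F (k + 1)) : barH k α (kf k x) = kf k (α x) := by
  have h1 : (barH k α).comp (kf k) = (kf k).comp α.toMonoidHom := by
    refine homF_ext fun i hi => ?_
    rcases Nat.eq_zero_or_pos i with rfl | h0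
    · change barH k α (kf k (zF 0)) = kf k (α (zF 0))
      rw [kf_z0, map_one]
      rcases h with h | ⟨g, h⟩
      · rw [h, map_one]
      · rw [h, map_mul, map_mul, map_inv, kf_z0]; simp
    · obtain ⟨i, rfl⟩ : ∃ j, i = j + 1 := ⟨i - 1, by omega⟩
      change barH k α (kf k (zF (i + 1))) = kf k (α (zF (i + 1)))
      rw [kf_zs (by omega)]
      change kf k (α (sf k (zF i))) = _
      rw [sf_z (by omega)]
  exact DFunLike.congr_fun h1 x

private lemma barH_kf' (α : PA (k + 1)) (x : F (k + 1)) : barH k α.1 (kf k x) = kf k (α.1 x) :=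
  barH_kf (Or.inr (α.2.1 0 (by omega))) x

private lemma barH_mul (α β : PA (k + 1)) (y : F k) :
    barH k (α * β).1 y = barH k α.1 (barH k β.1 y) := by
  obtain ⟨x, rfl⟩ := kf_surj k y
  rw [barH_kf', barH_kf', barH_kf']; rfl

private lemma barH_one (y : F k) : barH k (1 : PA (k + 1)).1 y = y := by
  obtain ⟨x, rfl⟩ := kf_surj k y
  rw [barH_kf']; rfl

/-- `ᾱ` as an automorphism -/
private def barA (α : PA (k + 1)) : MulAut (F k) where
  toFun := barH k α.1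
  invFun := barH k (α⁻¹).1
  left_inv y := by rw [← barH_mul, inv_mul_cancel, barH_one]
  right_inv y := by rw [← barH_mul, mul_inv_cancel, barH_one]
  map_mul' := map_mul _

private lemma barA_kf (α : PA (k + 1)) (x : F (k + 1)) : barA α (kf k x) = kf k (α.1 x) :=
  barH_kf' α x

private lemma gbar_unique {α : MulAut (F (k + 1))} {g g' : F (k + 1)}
    (h : α (zF 0) = g * zF 0 * g⁻¹) (h' : α (zF 0) = g' * zF 0 * g'⁻¹) : kf k g = kf k g' := by
  have h1 : (g'⁻¹ * g) * zF 0 = zF 0 * (g'⁻¹ * g) := by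
    have h2 : g * zF 0 * g⁻¹ = g' * zF 0 * g'⁻¹ := h ▸ h'
    calc (g'⁻¹ * g) * zF 0 = g'⁻¹ * (g * zF 0 * g⁻¹) * g := by group
      _ = zF 0 * (g'⁻¹ * g) := by rw [h2]; group
  obtain ⟨n, hn⟩ := zF_comm (by omega) h1
  have h3 : g = g' * zF 0 ^ n := by rw [← hn]; group
  rw [h3, map_mul, kf_z0_zpow, mul_one]

/-- the element `ḡ` -/
private noncomputable def gb (α : PA (k + 1)) : F k := kf k (Classical.choose (α.2.1 0 (by omega)))

private lemma gb_eq (α : PA (k + 1)) {g : F (k + 1)} (h : α.1 (zF 0) = g * zF 0 * g⁻¹) :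
    gb α = kf k g := gbar_unique (Classical.choose_spec (α.2.1 0 (by omega))) h

/-- the automorphism `conj(ḡ)⁻¹ ᾱ` -/
private noncomputable def ThA (α : PA (k + 1)) : MulAut (F k) := (MulAut.conj (gb α))⁻¹ * barA α

private lemma ThA_kf (α : PA (k + 1)) (x : F (k + 1)) :
    ThA α (kf k x) = (gb α)⁻¹ * kf k (α.1 x) * gb α := by
  unfold ThA
  rw [MulAut.mul_apply, barA_kf, ← map_inv, MulAut.conj_apply, inv_inv]

private lemma ThA_mul (α β : PA (k + 1)) : ThA (α * β) = ThA α * ThA β := by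
  obtain ⟨ga, ha⟩ := α.2.1 0 (by omega)
  obtain ⟨g', hb⟩ := β.2.1 0 (by omega)
  have hab : (α * β).1 (zF 0) = (α.1 g' * ga) * zF 0 * (α.1 g' * ga)⁻¹ := by
    change α.1 (β.1 (zF 0)) = _
    rw [hb, map_mul, map_mul, map_inv, ha]; group
  ext y
  obtain ⟨x, rfl⟩ := kf_surj k y
  rw [MulAut.mul_apply, ThA_kf, ThA_kf, gb_eq _ hab, gb_eq _ hb]
  have h1 : (kf k g')⁻¹ * kf k (β.1 x) * kf k g' = kf k (g'⁻¹ * β.1 x * g') := by
    rw [map_mul, map_mul, map_inv]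
  rw [h1, ThA_kf, gb_eq _ ha]
  change _ * kf k (α.1 (β.1 x)) * _ = _
  simp only [map_mul, map_inv]
  group

private lemma conj_kf {x z : F (k + 1)} (h : ∃ g, x = g * z * g⁻¹) (c : F k) :
    ∃ g, c⁻¹ * kf k x * c = g * kf k z * g⁻¹ := by
  obtain ⟨g, rfl⟩ := h
  refine ⟨c⁻¹ * kf k g, ?_⟩
  rw [map_mul, map_mul, map_inv]; group

private lemma ThA_mem (α : PA (k + 1)) : ThA α ∈ PA k := by
  refine ⟨fun i hi => ?_, ?_⟩
  · have h := conj_kf (α.2.1 (i + 1) (by omega)) (gb α)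
    rw [← ThA_kf, kf_zs hi] at h
    exact h
  · have h := conj_kf α.2.2 (gb α)
    rw [← ThA_kf, kf_w le_rfl] at h
    exact h

end

/-- block B5: forget the base point (the strand `0` becomes the base point) -/
theorem exists_Th (k : ℕ) : ∃ T : PA (k + 1) →* PA k, ∀ (α : PA (k + 1)) (g : F (k + 1)),
    α.1 (zF 0) = g * zF 0 * g⁻¹ →
      ∀ x, (T α).1 (kf k x) = (kf k g)⁻¹ * kf k (α.1 x) * kf k g := by
  refine ⟨MonoidHom.mk' (fun α => ⟨ThA α, ThA_mem α⟩) fun α β => Subtype.ext (ThA_mul α β), ?_⟩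
  intro α g h x
  change ThA α (kf k x) = _
  rw [ThA_kf, gb_eq α h]

/-- forget the base point (the strand `0` becomes the base point) -/
noncomputable def Th (k : ℕ) : PA (k + 1) →* PA k := Classical.choose (exists_Th k)

theorem Th_spec {k : ℕ} (α : PA (k + 1)) (g : F (k + 1)) (h : α.1 (zF 0) = g * zF 0 * g⁻¹)
    (x : F (k + 1)) : (Th k α).1 (kf k x) = (kf k g)⁻¹ * kf k (α.1 x) * kf k g :=
  Classical.choose_spec (exists_Th k) α g h x

end Pool.Agent.Helper38.BN
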