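import Pool.Agent.Helper22.BNP.P0

/-!
# Project BN, block B5, piece P2: an endomorphism of `F 1` which maps `z_0`, `z_1`, `z_1 z_0` to
conjugates is inner

After an inner automorphism `f z_0 = z_0` and `f z_1 = g z_1 g⁻¹` (`f (z_1 z_0)` is conjugate to
`z_1 z_0`).  Choose `g` of minimal length (as a reduced word) among all `z_0^n g z_1^m`: the reduced
word of `g` does not end with `z_1^{±1}` and does not begin with `z_0^{±1}`.  If `g ≠ 1`, then the
reduced word of `g` starts with `z_1^{±1}` and ends with `z_0^{±1}`, so `g z_1 g⁻¹ z_0` is cyclically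
reduced of length `2|g| + 2 > 2` and is not conjugate to `z_1 z_0`.  So `g = 1`: with
`f z_1 = z_0^n z_1 z_0^-n` (first `g = z_0^n z_1^m`) `f` is conjugation with `z_0^n`.

Tools: Mathlib has `FreeGroup.toWord`, `FreeGroup.IsReduced`, `FreeGroup.IsCyclicallyReduced`
(`Mathlib/GroupTheory/FreeGroup/CyclicallyReduced.lean`), or the free product language
`⟨z_0⟩ * ⟨z_1⟩` of `Helper7/AG` (`FreeProd`, `pv`, `PNt`, rotation: `Frot.lean`: conjugate lists of
pairs with nontrivial entries are rotations of each other, so they have the same length), or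
`Helper38/BN/B6Q.lean`, `B6P.lean`.
-/

namespace Pool.Agent.Helper38.BN

/-! Proof given here: with Sanov's faithful representation `z_0 ↦ [1, 2; 0, 1]`, `z_1 ↦ [1, 0; 2, 1]` (ping-pong)
the trace of `g z_1 g⁻¹ z_0` is `2 + 4 s²`, `s` the lower right entry of `g`; so `s = 1`, and
`g = z_0^n z_1^m`. -/

/-- `[1, n; 0, 1]` -/
private def P2U (n : ℤ) : Matrix.SpecialLinearGroup (Fin 2) ℤ := ⟨!![1, n; 0, 1], by simp⟩
/-- `[1, 0; n, 1]` -/
private def P2V (n : ℤ) : Matrix.SpecialLinearGroup (Fin 2) ℤ := ⟨!![1, 0; n, 1], by simp⟩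

private lemma P2U_mul (m n : ℤ) : P2U m * P2U n = P2U (m + n) := by
  apply Matrix.SpecialLinearGroup.ext
  intro i j
  fin_cases i <;> fin_cases j <;> simp [P2U, add_comm]

private lemma P2V_mul (m n : ℤ) : P2V m * P2V n = P2V (m + n) := by
  apply Matrix.SpecialLinearGroup.ext
  intro i j
  fin_cases i <;> fin_cases j <;> simp [P2V]

private lemma P2U_zero : P2U 0 = 1 := by
  apply Matrix.SpecialLinearGroup.ext
  intro i j
  fin_cases i <;> fin_cases j <;> simp [P2U]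

private lemma P2V_zero : P2V 0 = 1 := by
  apply Matrix.SpecialLinearGroup.ext
  intro i j
  fin_cases i <;> fin_cases j <;> simp [P2V]

private lemma P2U_zpow (n : ℤ) : P2U 2 ^ n = P2U (2 * n) := by
  induction n using Int.induction_on with
  | zero => rw [zpow_zero, mul_zero, P2U_zero]
  | succ n ih => rw [zpow_add_one, ih, P2U_mul]; exact congrArg P2U (by ring)
  | pred n ih =>
    rw [zpow_sub_one, ih, mul_inv_eq_iff_eq_mul, P2U_mul]; exact congrArg P2U (by ring)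

private lemma P2V_zpow (n : ℤ) : P2V 2 ^ n = P2V (2 * n) := by
  induction n using Int.induction_on with
  | zero => rw [zpow_zero, mul_zero, P2V_zero]
  | succ n ih => rw [zpow_add_one, ih, P2V_mul]; exact congrArg P2V (by ring)
  | pred n ih =>
    rw [zpow_sub_one, ih, mul_inv_eq_iff_eq_mul, P2V_mul]; exact congrArg P2V (by ring)

/-- Sanov's representation -/
private def P2gen (i : Fin 2) : Matrix.SpecialLinearGroup (Fin 2) ℤ := if i = 0 then P2U 2 else P2V 2

private def P2rho : F 1 →* Matrix.SpecialLinearGroup (Fin 2) ℤ := FreeGroup.lift P2gen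

private lemma P2rho_0 : P2rho (zF 0) = P2U 2 := by
  rw [zF_of (by omega)]; simp [P2rho, P2gen]

private lemma P2rho_1 : P2rho (zF 1) = P2V 2 := by
  rw [zF_of (by omega)]; simp [P2rho, P2gen]

private def P2X (i : Fin 2) : Set (Fin 2 → ℤ) := if i = 0 then {v | |v 1| < |v 0|} else {v | |v 0| < |v 1|}

private lemma P2_ineq (n u v : ℤ) (hn : n ≠ 0) (h : |u| < |v|) : |v| < |u + 2 * n * v| := by
  have h1 : |2 * n * v| ≤ |u + 2 * n * v| + |u| := by
    have := abs_sub (u + 2 * n * v) u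
    have e : u + 2 * n * v - u = 2 * n * v := by ring
    rwa [e] at this
  have h2 : 1 ≤ |n| := Int.one_le_abs hn
  rw [abs_mul, abs_mul, abs_two] at h1
  nlinarith [abs_nonneg v]

open scoped Pointwise in
private lemma P2rho_inj : Function.Injective P2rho := by
  have e : P2rho = (Monoid.CoprodI.lift fun i => FreeGroup.lift fun _ => P2gen i).comp
      (@freeGroupEquivCoprodI (Fin 2)).toMonoidHom := by
    unfold P2rho
    ext i
    simp
  rw [e, MonoidHom.coe_comp]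
  refine Function.Injective.comp ?_ (MulEquiv.injective freeGroupEquivCoprodI)
  let f : ∀ _ : Fin 2, FreeGroup Unit →* Matrix.SpecialLinearGroup (Fin 2) ℤ :=
    fun i => FreeGroup.lift fun _ => P2gen i
  refine Monoid.CoprodI.lift_injective_of_ping_pong f ?_ P2X ?_ ?_ ?_
  · right
    refine ⟨0, ?_⟩
    rw [FreeGroup.freeGroupUnitEquivInt.cardinal_eq, Cardinal.mk_denumerable]
    exact Cardinal.natCast_le_aleph0
  · intro i
    fin_cases i
    · exact ⟨![1, 0], by simp [P2X]⟩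
    · exact ⟨![0, 1], by simp [P2X]⟩
  · intro i j hij
    rw [Function.onFun, Set.disjoint_left]
    intro v hv hv'
    fin_cases i <;> fin_cases j
    · exact hij rfl
    · simp [P2X] at hv hv'; omega
    · simp [P2X] at hv hv'; omega
    · exact hij rfl
  · intro i j hij
    refine FreeGroup.freeGroupUnitEquivInt.forall_congr_left.mpr ?_
    intro n hne1
    change FreeGroup.lift (fun _ => P2gen i) (FreeGroup.of () ^ n) • P2X j ⊆ P2X i
    simp only [map_zpow, FreeGroup.lift_apply_of]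
    have hn : n ≠ 0 := by
      rintro rfl
      apply hne1
      simp [FreeGroup.freeGroupUnitEquivInt]
    rintro _ ⟨v, hv, rfl⟩
    change P2gen i ^ n • v ∈ P2X i
    fin_cases i <;> fin_cases j
    · exact absurd rfl hij
    · have hv' : |v 0| < |v 1| := by simpa [P2X] using hv
      have e1 : P2gen 0 ^ n = P2U (2 * n) := by
        rw [← P2U_zpow]; rfl
      change P2gen 0 ^ n • v ∈ P2X 0
      rw [e1, Matrix.SpecialLinearGroup.smul_def]
      simp [P2X, P2U, Matrix.mulVec, dotProduct]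
      exact P2_ineq n _ _ hn hv'
    · have hv' : |v 1| < |v 0| := by simpa [P2X] using hv
      have e1 : P2gen 1 ^ n = P2V (2 * n) := by
        rw [← P2V_zpow]; rfl
      change P2gen 1 ^ n • v ∈ P2X 1
      rw [e1, Matrix.SpecialLinearGroup.smul_def]
      simp [P2X, P2V, Matrix.mulVec, dotProduct]
      rw [add_comm]
      exact P2_ineq n _ _ hn hv'
    · exact absurd rfl hij

/-- the congruences -/
private def P2P (g : F 1) : Prop :=
  (2 : ℤ) ∣ (P2rho g).1 0 1 ∧ (2 : ℤ) ∣ (P2rho g).1 1 0 ∧ (4 : ℤ) ∣ (P2rho g).1 0 0 - 1 ∧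
    (4 : ℤ) ∣ (P2rho g).1 1 1 - 1

private lemma P2P_all (g : F 1) : P2P g := by
  have hm : ∀ x y : F 1, P2P x → P2P y → P2P (x * y) := by
    rintro x y ⟨⟨a1, h1⟩, ⟨a2, h2⟩, ⟨a3, h3⟩, ⟨a4, h4⟩⟩ ⟨⟨b1, k1⟩, ⟨b2, k2⟩, ⟨b3, k3⟩, ⟨b4, k4⟩⟩
    unfold P2P
    rw [map_mul, Matrix.SpecialLinearGroup.coe_mul]
    have h3' : (P2rho x).1 0 0 = 4 * a3 + 1 := by linarith
    have h4' : (P2rho x).1 1 1 = 4 * a4 + 1 := by linarith
    have k3' : (P2rho y).1 0 0 = 4 * b3 + 1 := by linarith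
    have k4' : (P2rho y).1 1 1 = 4 * b4 + 1 := by linarith
    simp only [Matrix.mul_apply, Fin.sum_univ_two]
    refine ⟨⟨(4 * a3 + 1) * b1 + a1 * (4 * b4 + 1), ?_⟩, ⟨a2 * (4 * b3 + 1) + (4 * a4 + 1) * b2, ?_⟩,
      ⟨4 * a3 * b3 + a3 + b3 + a1 * b2, ?_⟩, ⟨a2 * b1 + 4 * a4 * b4 + a4 + b4, ?_⟩⟩
    · rw [h3', h1, k1, k4']; ring
    · rw [h2, h4', k2, k3']; ring
    · rw [h3', h1, k2, k3']; ring
    · rw [h2, h4', k1, k4']; ring
  have hgen : ∀ i : Fin 2, P2P (FreeGroup.of i) ∧ P2P (FreeGroup.of i)⁻¹ := by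
    intro i
    unfold P2P
    fin_cases i
    · rw [map_inv]
      have e : P2rho (FreeGroup.of ⟨0, by omega⟩) = P2U 2 := by simp [P2rho, P2gen]
      have e' : (P2U 2)⁻¹ = P2U (-2) := by
        rw [inv_eq_iff_mul_eq_one, P2U_mul]; exact P2U_zero
      constructor
      · rw [e]; simp [P2U]
      · rw [e, e']; simp [P2U]
    · rw [map_inv]
      have e : P2rho (FreeGroup.of ⟨1, by omega⟩) = P2V 2 := by simp [P2rho, P2gen]
      have e' : (P2V 2)⁻¹ = P2V (-2) := by
        rw [inv_eq_iff_mul_eq_one, P2V_mul]; exact P2V_zero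
      constructor
      · rw [e]; simp [P2V]
      · rw [e, e']; simp [P2V]
  refine FreeGroup.induction_on g ?_ (fun i => (hgen i).1) (fun i _ => (hgen i).2)
    (fun x y hx hy => hm _ _ hx hy)
  unfold P2P
  rw [map_one]
  simp

/-- the trace of `g z_1 g⁻¹ z_0` -/
private lemma P2_trace (g : F 1) : (P2rho (g * zF 1 * g⁻¹ * zF 0)).1.trace =
    2 + 4 * (P2rho g).1 1 1 ^ 2 := by
  have hd := (P2rho g).2
  rw [Matrix.det_fin_two] at hd
  rw [map_mul, map_mul, map_mul, map_inv, P2rho_0, P2rho_1]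
  rw [Matrix.SpecialLinearGroup.coe_mul, Matrix.SpecialLinearGroup.coe_mul,
    Matrix.SpecialLinearGroup.coe_mul, Matrix.SpecialLinearGroup.coe_inv, Matrix.adjugate_fin_two]
  generalize (P2rho g).1 = M at hd ⊢
  simp only [P2U, P2V, Matrix.trace, Matrix.diag, Fin.sum_univ_two, Matrix.mul_apply]
  simp
  linear_combination 2 * hd

private lemma P2_main {g h : F 1} (hh : g * zF 1 * g⁻¹ * zF 0 = h * (zF 1 * zF 0) * h⁻¹) :
    ∃ n m : ℤ, g = zF 0 ^ n * zF 1 ^ m := by
  have e1 : (P2rho (g * zF 1 * g⁻¹ * zF 0)).1.trace = (P2rho (zF 1 * zF 0)).1.trace := by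
    rw [hh, map_mul, map_mul, map_inv, Matrix.SpecialLinearGroup.coe_mul,
      Matrix.SpecialLinearGroup.coe_mul, Matrix.trace_mul_comm, ← mul_assoc,
      ← Matrix.SpecialLinearGroup.coe_mul, inv_mul_cancel, Matrix.SpecialLinearGroup.coe_one, one_mul]
  have e2 := P2_trace 1
  rw [one_mul, inv_one, mul_one] at e2
  rw [P2_trace g, e2, map_one] at e1
  have e3 : ((P2rho g).1 1 1 - 1) * ((P2rho g).1 1 1 + 1) = 0 := by
    have : ((1 : Matrix.SpecialLinearGroup (Fin 2) ℤ).1 1 1) = 1 := by simp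
    rw [this] at e1
    linarith
  obtain ⟨⟨a, ha⟩, ⟨b, hb⟩, -, ⟨c, hc⟩⟩ := P2P_all g
  have e4 : (P2rho g).1 1 1 = 1 := by
    rcases mul_eq_zero.1 e3 with h | h <;> omega
  have hd := (P2rho g).2
  rw [Matrix.det_fin_two, e4, ha, hb] at hd
  refine ⟨a, b, P2rho_inj ?_⟩
  rw [map_mul, map_zpow, map_zpow, P2rho_0, P2rho_1, P2U_zpow, P2V_zpow]
  apply Matrix.SpecialLinearGroup.ext
  intro i j
  fin_cases i <;> fin_cases j
  · simp [P2U, P2V]; linarith
  · simp [P2U, P2V]; exact ha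
  · simp [P2U, P2V]; exact hb
  · simp [P2U, P2V]; exact e4

/-- an endomorphism of `F 1` which maps `z_0`, `z_1`, `z_1 z_0` to conjugates is inner -/
theorem inner_F1 (f : F 1 →* F 1) (h0 : ∃ g, f (zF 0) = g * zF 0 * g⁻¹)
    (h1 : ∃ g, f (zF 1) = g * zF 1 * g⁻¹)
    (hw : ∃ g, f (zF 1 * zF 0) = g * (zF 1 * zF 0) * g⁻¹) : ∃ t, ∀ x, f x = t * x * t⁻¹ := by
  obtain ⟨g0, h0⟩ := h0
  obtain ⟨g1, h1⟩ := h1
  obtain ⟨h, hw⟩ := hw
  obtain ⟨n, m, e⟩ := P2_main (g := g0⁻¹ * g1) (h := g0⁻¹ * h) (by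
    rw [map_mul, h0, h1] at hw
    calc g0⁻¹ * g1 * zF 1 * (g0⁻¹ * g1)⁻¹ * zF 0
        = g0⁻¹ * (g1 * zF 1 * g1⁻¹ * (g0 * zF 0 * g0⁻¹)) * g0 := by group
      _ = g0⁻¹ * h * (zF 1 * zF 0) * (g0⁻¹ * h)⁻¹ := by rw [hw]; group)
  have e' : g1 = g0 * (zF 0 ^ n * zF 1 ^ m) := by rw [← e]; group
  refine ⟨g0 * zF 0 ^ n, fun x => ?_⟩
  have key : f = (MulAut.conj (g0 * zF 0 ^ n)).toMonoidHom := by
    apply homF_ext
    intro i hi
    change f (zF i) = g0 * zF 0 ^ n * zF i * (g0 * zF 0 ^ n)⁻¹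
    rcases Nat.le_one_iff_eq_zero_or_eq_one.1 hi with rfl | rfl
    · rw [h0]; group
    · rw [h1, e']; group
  exact DFunLike.congr_fun key x

end Pool.Agent.Helper38.BN
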