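import Pool.Agent.Helper22.BNP.P0

/-!
# Project BN, block B5, piece P7: the shift lemma

`F k` embeds into `FreeGroup (ℤ × Fin k) ⋊ ℤ` (`z_0 ↦` the shift generator, `z_i ↦` the letter
`(0, i-1)` for `i ≥ 1`): a left inverse on the semidirect product is `(n, i) ↦ z_0^n z_{i+1} z_0^-n`,
`shift ↦ z_0` (`SemidirectProduct.lift`).  The second component is `e0`, so the elements of `ker e0`
go to the first factor `L = FreeGroup (ℤ × Fin k)`.  The elements of `closure S` go to the subgroup
of `L` generated by a finite set `E` of letters.  Conjugation with `z_0^n` shifts `E` off itself for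
large `n`; for `s ∈ S` the element `z_0^n s z_0^-n` is in `closure S`, so the image of `s` lies in
the subgroups generated by two disjoint sets of letters, so it is trivial.
This is the proof of `Helper38/BT/Shift.lean` (theorem `shift`) with `FreeGroup (Fin 2)` replaced by
`Multiplicative ℤ` and the letters `G` by `ℤ × Fin k`: copy that file.
-/

namespace Pool.Agent.Helper38.BN

/-- the exponent of `z_0` -/
def e0 (k : ℕ) : F k →* Multiplicative ℤ :=
  liftF (fun i => if i = 0 then Multiplicative.ofAdd 1 else 1)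

/-- the letters -/
private abbrev SfL : Type := Multiplicative ℤ × ℕ

/-- the shift of the letters -/
private def Sf_sh (g : Multiplicative ℤ) : SfL ≃ SfL :=
  (Equiv.mulLeft g).prodCongr (Equiv.refl ℕ)

private lemma Sf_sh_apply (g h : Multiplicative ℤ) (i : ℕ) : Sf_sh g (h, i) = (g * h, i) := rfl

/-- the action on the letters -/
private def Sf_act : Multiplicative ℤ →* MulAut (FreeGroup SfL) where
  toFun g := FreeGroup.freeGroupCongr (Sf_sh g)
  map_one' := by
    ext x
    change FreeGroup.map _ x = x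
    conv_rhs => rw [← FreeGroup.map.id x]
    congr 1
    ext y
    simp [Sf_sh]
  map_mul' g h := by
    ext x
    change FreeGroup.map _ x = FreeGroup.map _ (FreeGroup.map _ x)
    rw [FreeGroup.map.comp]
    congr 1
    ext ⟨y, i⟩
    change FreeGroup.of (g * h * y, i) = FreeGroup.of (g * (h * y), i)
    rw [mul_assoc]

private theorem Sf_act_of (g h : Multiplicative ℤ) (i : ℕ) :
    Sf_act g (FreeGroup.of (h, i)) = FreeGroup.of (g * h, i) := rfl

private theorem Sf_fin {A : Type} (w : FreeGroup A) :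
    ∃ E : Set A, E.Finite ∧ w ∈ Subgroup.closure (FreeGroup.of '' E) := by
  induction w using FreeGroup.induction_on with
  | C1 => exact ⟨∅, Set.finite_empty, one_mem _⟩
  | of a => exact ⟨{a}, Set.finite_singleton a, Subgroup.subset_closure ⟨a, rfl, rfl⟩⟩
  | inv_of a h =>
    obtain ⟨E, hE, h⟩ := h
    exact ⟨E, hE, inv_mem h⟩
  | mul x y hx hy =>
    obtain ⟨E, hE, hx⟩ := hx
    obtain ⟨E', hE', hy⟩ := hy
    refine ⟨E ∪ E', hE.union hE', mul_mem ?_ ?_⟩
    · exact Subgroup.closure_mono (Set.image_mono Set.subset_union_left) hx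
    · exact Subgroup.closure_mono (Set.image_mono Set.subset_union_right) hy

open Classical in
private theorem Sf_disj {A : Type} (E E' : Set A) (h : Disjoint E E') (u : FreeGroup A)
    (h1 : u ∈ Subgroup.closure (FreeGroup.of '' E))
    (h2 : u ∈ Subgroup.closure (FreeGroup.of '' E')) : u = 1 := by
  let c : FreeGroup A →* FreeGroup A :=
    FreeGroup.lift fun a => if a ∈ E then 1 else FreeGroup.of a
  have e1 : Subgroup.closure (FreeGroup.of '' E) ≤ c.ker := by
    rw [Subgroup.closure_le]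
    rintro _ ⟨a, ha, rfl⟩
    change c (FreeGroup.of a) = 1
    simp [c, ha]
  have e2 : Subgroup.closure (FreeGroup.of '' E') ≤ c.eqLocus (MonoidHom.id _) := by
    rw [Subgroup.closure_le]
    rintro _ ⟨a, ha, rfl⟩
    change c (FreeGroup.of a) = FreeGroup.of a
    have : a ∉ E := fun h' => Set.disjoint_left.1 h h' ha
    simp [c, this]
  have e3 : c u = 1 := e1 h1
  have e4 : c u = u := e2 h2
  rw [← e4, e3]

private def Sf_sec (k : ℕ) : Multiplicative ℤ →* F k := zpowersHom (F k) (zF 0)

private lemma Sf_sec_one (k : ℕ) : Sf_sec k (Multiplicative.ofAdd 1) = zF 0 := by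
  unfold Sf_sec
  simp

private def Sf_Sh (k : ℕ) : F k →* FreeGroup SfL ⋊[Sf_act] Multiplicative ℤ :=
  liftF (fun i => if i = 0 then SemidirectProduct.inr (Multiplicative.ofAdd 1) else
    SemidirectProduct.inl (FreeGroup.of (1, i)))

private lemma Sf_Sh_zero (k : ℕ) :
    Sf_Sh k (zF 0) = SemidirectProduct.inr (Multiplicative.ofAdd 1) := by
  unfold Sf_Sh
  rw [liftF_z _ (Nat.zero_le k), if_pos rfl]

private lemma Sf_Sh_pos {k i : ℕ} (hi : i ≤ k) (h : i ≠ 0) :
    Sf_Sh k (zF i) = SemidirectProduct.inl (FreeGroup.of (1, i)) := by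
  unfold Sf_Sh
  rw [liftF_z _ hi, if_neg h]

private def Sf_T (k : ℕ) : FreeGroup SfL ⋊[Sf_act] Multiplicative ℤ →* F k :=
  SemidirectProduct.lift
    (FreeGroup.lift fun g : SfL => Sf_sec k g.1 * zF g.2 * (Sf_sec k g.1)⁻¹) (Sf_sec k) (by
      intro g
      refine FreeGroup.ext_hom _ _ fun h => ?_
      obtain ⟨h, i⟩ := h
      simp [Sf_act_of, mul_assoc])

private theorem Sf_TSh {k : ℕ} (z : F k) : Sf_T k (Sf_Sh k z) = z := by
  have h : (Sf_T k).comp (Sf_Sh k) = MonoidHom.id _ := by
    apply homF_ext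
    intro i hi
    rw [MonoidHom.comp_apply, MonoidHom.id_apply]
    by_cases h0 : i = 0
    · subst h0
      rw [Sf_Sh_zero]
      simp [Sf_T, Sf_sec_one]
    · rw [Sf_Sh_pos hi h0]
      simp [Sf_T]
  exact DFunLike.congr_fun h z

private theorem Sf_right {k : ℕ} (z : F k) : (Sf_Sh k z).right = e0 k z := by
  have h : SemidirectProduct.rightHom.comp (Sf_Sh k) = e0 k := by
    apply homF_ext
    intro i hi
    rw [MonoidHom.comp_apply]
    unfold e0
    rw [liftF_z _ hi]
    by_cases h0 : i = 0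
    · subst h0
      rw [Sf_Sh_zero, if_pos rfl]
      simp
    · rw [Sf_Sh_pos hi h0, if_neg h0]
      simp
  exact DFunLike.congr_fun h z

private theorem Sf_ShSec {k : ℕ} (g : Multiplicative ℤ) :
    Sf_Sh k (Sf_sec k g) = SemidirectProduct.inr g := by
  have h : (Sf_Sh k).comp (Sf_sec k) = SemidirectProduct.inr := by
    apply MonoidHom.ext_mint
    rw [MonoidHom.comp_apply, Sf_sec_one, Sf_Sh_zero]
  exact DFunLike.congr_fun h g

/-- piece P7: a finite subset of `ker e0` whose closure is normal in `F k` is trivial -/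
theorem shiftF (k : ℕ) (S : Set (F k)) (hS : S.Finite) (h0 : ∀ s ∈ S, e0 k s = 1)
    (hn : ∀ z : F k, ∀ s ∈ S, z * s * z⁻¹ ∈ Subgroup.closure S) : ∀ s ∈ S, s = 1 := by
  have hl : ∀ s ∈ S, Sf_Sh k s = SemidirectProduct.inl (Sf_Sh k s).left := by
    intro s hs
    refine SemidirectProduct.ext rfl ?_
    rw [Sf_right, h0 s hs]
    rfl
  choose E hE hEm using fun s : F k => Sf_fin (Sf_Sh k s).left
  let B : Set SfL := ⋃ s ∈ S, E s
  have hB : B.Finite := hS.biUnion fun s _ => hE s
  have hBm : ∀ s ∈ S, (Sf_Sh k s).left ∈ Subgroup.closure (FreeGroup.of '' B) := fun s hs =>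
    Subgroup.closure_mono (Set.image_mono (Set.subset_biUnion_of_mem hs)) (hEm s)
  have hM : Subgroup.closure S ≤
      ((Subgroup.closure (FreeGroup.of '' B)).map SemidirectProduct.inl).comap (Sf_Sh k) := by
    rw [Subgroup.closure_le]
    intro s hs
    exact ⟨_, hBm s hs, (hl s hs).symm⟩
  obtain ⟨g, hg⟩ := (hB.image2 (fun a b => a.1 * b.1⁻¹) hB).exists_notMem
  have hdis : Disjoint B (Sf_sh g '' B) := by
    rw [Set.disjoint_left]
    rintro _ ha ⟨⟨b, i⟩, hb, rfl⟩
    exact hg ⟨_, ha, _, hb, by simp [Sf_sh_apply]⟩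
  intro s hs
  have h1 : Sf_act g (Sf_Sh k s).left ∈ Subgroup.closure (FreeGroup.of '' B) := by
    obtain ⟨m, hm, hm'⟩ := hM (hn (Sf_sec k g) s hs)
    rw [map_mul, map_mul, map_inv, Sf_ShSec, hl s hs, ← map_inv,
      ← SemidirectProduct.inl_aut] at hm'
    rw [← SemidirectProduct.inl_injective hm']
    exact hm
  have h2 : Sf_act g (Sf_Sh k s).left ∈ Subgroup.closure (FreeGroup.of '' (Sf_sh g '' B)) := by
    have h3 : Subgroup.closure (FreeGroup.of '' B) ≤
        (Subgroup.closure (FreeGroup.of '' (Sf_sh g '' B))).comap (Sf_act g).toMonoidHom := by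
      rw [Subgroup.closure_le]
      rintro _ ⟨⟨a, i⟩, ha, rfl⟩
      exact Subgroup.subset_closure ⟨Sf_sh g (a, i), ⟨(a, i), ha, rfl⟩, rfl⟩
    exact h3 (hBm s hs)
  have h4 := Sf_disj _ _ hdis _ h1 h2
  have h5 : (Sf_Sh k s).left = 1 := (Sf_act g).injective (by rw [h4, map_one])
  rw [← Sf_TSh s, hl s hs, h5, map_one, map_one]

end Pool.Agent.Helper38.BN
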