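import Pool.Agent.Helper22.BNP.P5
import Pool.Agent.Helper38.BN.IntH
import Pool.Agent.Helper22.BNP.P7

/-!
# Project BN, block B5, piece P8: finitely generated normal subgroups killed by all surjections
-/

namespace Pool.Agent.Helper38.BN

/-- the image of `PH k` in `MulAut (F k)` -/
def Q (k : ℕ) : Subgroup (MulAut (F k)) := (PH k).map (Chi k)

theorem Q_le (k : ℕ) : Q k ≤ PA k := by
  rintro _ ⟨h, hh, rfl⟩
  exact chi_PA hh

/-- piece P8a: `HB 0` is generated by `d`, which acts by conjugation with `z_0`, and `F 0` is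
abelian (generated by `z_0`) -/
theorem Q_zero : Q 0 = ⊥ := by
  have h1 : Chi 0 = 1 := by
    apply homH_ext
    · intro j hj
      omega
    · unfold Chi
      rw [liftH_d, MonoidHom.one_apply]
      refine autF_ext fun i hi => ?_
      have hi0 : i = 0 := by omega
      subst hi0
      rw [chiD, MulAut.conj_apply, mul_inv_cancel_right, MulAut.one_apply]
  rw [eq_bot_iff]
  rintro _ ⟨h, -, rfl⟩
  rw [h1, Subgroup.mem_bot, MonoidHom.one_apply]

/-- piece P8b: `α = Chi h`, `h = zH x * ι h'` (`PH_decomp`), `α = conj x * Chi (ι h')`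
(`chi_zH`), `Th_conj`, `Th_iota` -/
theorem Th_Q {k : ℕ} {α : PA (k + 1)} (hα : α.1 ∈ Q (k + 1)) : (Th k α).1 ∈ Q k := by
  obtain ⟨h, hh, hα'⟩ := hα
  obtain ⟨x, h', hh', rfl⟩ := PH_decomp hh
  have hx : zH (k + 1) x ∈ PH (k + 1) := piH_zH x
  have hxA : MulAut.conj x ∈ PA (k + 1) := chi_zH x ▸ chi_PA hx
  have hβ1 : ((⟨MulAut.conj x, hxA⟩ : PA (k + 1))⁻¹ * α).1 = Chi (k + 1) (iota k h') := by
    rw [Subgroup.coe_mul, Subgroup.coe_inv, ← hα', map_mul, chi_zH, inv_mul_cancel_left]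
  have h2 := Th_iota hβ1
  rw [map_mul, map_inv, Th_conj (α := ⟨MulAut.conj x, hxA⟩) rfl, inv_one, one_mul] at h2
  exact ⟨h', hh', h2.symm⟩

/-- piece P8b: for `h' ∈ PH k` the element `ι h'` is pure (`piH_iota`, `piH_iota_zero`) and `Th_iota` -/
theorem Th_Q_surj {k : ℕ} {q : MulAut (F k)} (hq : q ∈ Q k) :
    ∃ α : PA (k + 1), α.1 ∈ Q (k + 1) ∧ (Th k α).1 = q := by
  obtain ⟨h, hh, rfl⟩ := hq
  have hp : piH k h = 1 := hh
  have hi : iota k h ∈ PH (k + 1) := by
    refine MonoidHom.mem_ker.2 (Equiv.ext fun i => ?_)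
    rcases i with _ | i
    · rw [piH_iota_zero]; rfl
    · rw [piH_iota, hp]; rfl
  exact ⟨⟨Chi (k + 1) (iota k h), chi_PA hi⟩, ⟨_, hi, rfl⟩, Th_iota rfl⟩

/-- piece P8c: an element `α = Chi h` of `Q (k+1)` with `Th α = 1` is inner: `h = zH x * ι h'`,
`Th α = Chi h' = 1`, `h' = ζ^n` (`faithful`), `ι (ζ^n) = Ω^n` (`iota_zeta`), and
`Chi Ω = conj(w)⁻¹` from `ζ = w Ω` (`zeH_eq`, `chi_zeta`, `chi_zH`); so `α = conj (x w^-n)` -/
theorem Q_ker {k : ℕ} {α : PA (k + 1)} (hα : α.1 ∈ Q (k + 1)) (h1 : Th k α = 1) :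
    ∃ x, α.1 = MulAut.conj x := by
  obtain ⟨h, hh, hα'⟩ := hα
  obtain ⟨x, h', hh', rfl⟩ := PH_decomp hh
  have hx : zH (k + 1) x ∈ PH (k + 1) := piH_zH x
  have hxA : MulAut.conj x ∈ PA (k + 1) := chi_zH x ▸ chi_PA hx
  set β : PA (k + 1) := (⟨MulAut.conj x, hxA⟩ : PA (k + 1))⁻¹ * α with hβ
  have hβ1 : β.1 = Chi (k + 1) (iota k h') := by
    rw [hβ, Subgroup.coe_mul, Subgroup.coe_inv, ← hα', map_mul, chi_zH, inv_mul_cancel_left]
  have hT : Th k β = 1 := by
    rw [hβ, map_mul, map_inv, h1, Th_conj (α := ⟨MulAut.conj x, hxA⟩) rfl, inv_one, one_mul]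
  have hC : Chi k h' = 1 := by
    rw [← Th_iota hβ1, hT]; rfl
  obtain ⟨n, rfl⟩ := Subgroup.mem_zpowers_iff.1 (faithful hC)
  have hO : Chi (k + 1) (Om (k + 1) aH) = (MulAut.conj (wF (k + 1)))⁻¹ := by
    have h2 := chi_zeta (k + 1)
    rw [zeH_eq, map_mul, chi_zH] at h2
    exact eq_inv_of_mul_eq_one_right h2
  refine ⟨x * (wF (k + 1))⁻¹ ^ n, ?_⟩
  rw [← hα', map_mul, chi_zH, map_zpow, iota_zeta, map_zpow, hO, map_mul, map_zpow, map_inv]

/-- piece P8d: inner automorphisms are in `Q (k+1)` (`chi_zH`, `piH_zH`) -/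
theorem conj_Q (k : ℕ) (x : F k) : MulAut.conj x ∈ Q k :=
  ⟨zH k x, (MonoidHom.mem_ker.2 (piH_zH x) : zH k x ∈ (piH k).ker), chi_zH x⟩

/-- piece P8d: `MulAut.conj` is injective on `F (k+1)` (`F_center`) -/
theorem conj_inj {k : ℕ} {x y : F (k + 1)} (h : MulAut.conj x = MulAut.conj y) : x = y := by
  have h1 : y⁻¹ * x = 1 := by
    apply F_center
    intro z
    have h2 : x * z * x⁻¹ = y * z * y⁻¹ := by
      rw [← MulAut.conj_apply, ← MulAut.conj_apply, h]
    calc y⁻¹ * x * z = y⁻¹ * (x * z * x⁻¹) * x := by group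
      _ = z * (y⁻¹ * x) := by rw [h2]; group
  rw [inv_mul_eq_one] at h1
  exact h1.symm

private lemma e0_k01 {k : ℕ} (x : F (k + 1)) : e0 (k + 1) x = e0 1 (k01 (k + 1) x) := by
  have h : e0 (k + 1) = (e0 1).comp (k01 (k + 1)) := by
    refine homF_ext fun i hi => ?_
    rw [MonoidHom.comp_apply]
    rcases Nat.lt_or_ge i 2 with h2 | h2
    · rcases Nat.lt_or_ge i 1 with h1 | h1
      · have e : i = 0 := by omega
        subst e
        rw [k01_z0]; unfold e0; rw [liftF_z _ (by omega), liftF_z _ (by omega)]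
      · have e : i = 1 := by omega
        subst e
        rw [k01_z1]; unfold e0; rw [liftF_z _ (by omega), liftF_z _ (by omega)]
    · rw [k01_z h2, map_one]; unfold e0; rw [liftF_z _ (by omega), if_neg (by omega)]
  rw [h]; rfl

/-- the restriction of `Th` to `Q (k+1)` -/
private noncomputable def ThQ (k : ℕ) : Q (k + 1) →* Q k :=
  ((PA k).subtype.comp ((Th k).comp (Subgroup.inclusion (Q_le (k + 1))))).codRestrict (Q k)
    fun x => Th_Q (α := Subgroup.inclusion (Q_le (k + 1)) x) x.2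

private lemma ThQ_surj (k : ℕ) : Function.Surjective (ThQ k) := by
  rintro ⟨q, hq⟩
  obtain ⟨α, h1, h2⟩ := Th_Q_surj hq
  exact ⟨⟨α.1, h1⟩, Subtype.ext h2⟩

/-- the restriction of `f01` to `Q (k+1)` -/
private noncomputable def f01Q (k : ℕ) : Q (k + 1) →* FreeGroup (Fin 2) :=
  (f01 k).comp (Subgroup.inclusion (Q_le (k + 1)))

private lemma f01Q_conj {k : ℕ} {q : Q (k + 1)} {x : F (k + 1)} (h : q.1 = MulAut.conj x) :
    f01Q k q = k01 (k + 1) x := f01_conj (α := Subgroup.inclusion (Q_le (k + 1)) q) h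

private lemma f01Q_surj (k : ℕ) : Function.Surjective (f01Q k) := by
  intro y
  obtain ⟨x, hx⟩ := k01_surj k y
  exact ⟨⟨MulAut.conj x, conj_Q _ x⟩, (f01Q_conj rfl).trans hx⟩

/-- block B5: the main result -/
theorem claim (k : ℕ) (M : Subgroup (MulAut (F k))) (hM : M ≤ Q k)
    (hn : ∀ q ∈ Q k, ∀ x ∈ M, q * x * q⁻¹ ∈ M) (hfg : M.FG)
    (hk : ∀ g : Q k →* FreeGroup (Fin 2), Function.Surjective g →
      ∀ x (hx : x ∈ M), g ⟨x, hM hx⟩ = 1) : M = ⊥ := by
  induction k with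
  | zero =>
    rw [Q_zero] at hM
    exact le_bot_iff.1 hM
  | succ k ih =>
    -- the image of `M` under `Th`
    let f : M →* MulAut (F k) := (Q k).subtype.comp ((ThQ k).comp (Subgroup.inclusion hM))
    have hM1 : f.range = ⊥ := by
      refine ih f.range ?_ ?_ ?_ ?_
      · rintro _ ⟨m, rfl⟩
        exact (ThQ k (Subgroup.inclusion hM m)).2
      · rintro q hq _ ⟨m, rfl⟩
        obtain ⟨α, hα⟩ := ThQ_surj k ⟨q, hq⟩
        refine ⟨⟨α.1 * m.1 * α.1⁻¹, hn _ α.2 _ m.2⟩, ?_⟩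
        have h1 : Subgroup.inclusion hM ⟨α.1 * m.1 * α.1⁻¹, hn _ α.2 _ m.2⟩ =
            α * Subgroup.inclusion hM m * α⁻¹ := Subtype.ext rfl
        change (Q k).subtype (ThQ k (Subgroup.inclusion hM _)) = _
        rw [h1, map_mul, map_mul, map_mul, map_mul, map_inv, map_inv, hα]
        rfl
      · have h1 : Group.FG M := (Group.fg_iff_subgroup_fg M).2 hfg
        exact (Group.fg_iff_subgroup_fg _).1 (Group.fg_range f)
      · rintro g hg x ⟨m, rfl⟩
        have h1 := hk (g.comp (ThQ k)) (hg.comp (ThQ_surj k)) m.1 m.2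
        exact h1
    have hin : ∀ m ∈ M, ∃ x, m = MulAut.conj x := by
      intro m hm
      refine Q_ker (α := ⟨m, Q_le _ (hM hm)⟩) (hM hm) (Subtype.ext ?_)
      have h1 : f ⟨m, hm⟩ ∈ f.range := ⟨_, rfl⟩
      rw [hM1, Subgroup.mem_bot] at h1
      exact h1
    obtain ⟨S, hS⟩ := hfg
    have hSM : ∀ s ∈ S, s ∈ M := fun s hs => hS ▸ Subgroup.subset_closure hs
    -- the preimage of `S`
    set T : Set (F (k + 1)) := {x | MulAut.conj x ∈ S} with hT
    have hinj : Function.Injective (MulAut.conj : F (k + 1) → MulAut (F (k + 1))) :=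
      fun x y h => conj_inj h
    have hTf : T.Finite := S.finite_toSet.preimage hinj.injOn
    have hmap : (Subgroup.closure T).map (MulAut.conj : F (k + 1) →* MulAut (F (k + 1))) = M := by
      rw [MonoidHom.map_closure, ← hS]
      congr 1
      ext s
      constructor
      · rintro ⟨x, hx, rfl⟩
        exact hx
      · intro hs
        obtain ⟨x, rfl⟩ := hin s (hSM s hs)
        exact ⟨x, hs, rfl⟩
    have hcl : ∀ x : F (k + 1), MulAut.conj x ∈ M → x ∈ Subgroup.closure T := by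
      intro x hx
      rw [← hmap] at hx
      obtain ⟨y, hy, hyx⟩ := hx
      exact conj_inj hyx ▸ hy
    have h1 : ∀ s ∈ T, s = 1 := by
      refine shiftF (k + 1) T hTf ?_ ?_
      · intro s hs
        have h2 := hk (f01Q k) (f01Q_surj k) _ (hSM _ hs)
        rw [e0_k01, ← f01Q_conj (q := ⟨_, hM (hSM _ hs)⟩) rfl]
        rw [h2, map_one]
      · intro z s hs
        apply hcl
        rw [map_mul, map_mul, map_inv]
        exact hn _ (conj_Q _ z) _ (hSM _ hs)
    rw [← hmap, Subgroup.map_eq_bot_iff]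
    rw [Subgroup.closure_le]
    intro s hs
    rw [h1 s hs]
    exact one_mem _

end Pool.Agent.Helper38.BN
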