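import Pool.Agent.Helper22.BNP.P8

/-!
# Project BN, block B5, piece P9: the surjection `fF`
-/

namespace Pool.Agent.Helper38.BN

/-- the surjection `PH (k+2) → F 1` which forgets the base point and all strands except
`0, 1, 2` -/
noncomputable def fF (k : ℕ) : PH (k + 2) →* F 1 := ((f01 k).comp (Th (k + 1))).comp (cP (k + 2))

/-- piece P9: `Th_conj` with `chi_zH` -/
theorem fF_z (k : ℕ) (h : PH (k + 2)) {x : F (k + 2)} (hx : h.1 = zH (k + 2) x) :
    fF k h = 1 := by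
  have h1 : Th (k + 1) (cP (k + 2) h) = 1 :=
    Th_conj (x := x) (by change Chi (k + 2) h.1 = _; rw [hx, chi_zH])
  change f01 k (Th (k + 1) (cP (k + 2) h)) = 1
  rw [h1, map_one]

/-- piece P9: `Th_iota`, `chi_zH`, `f01_conj` -/
theorem fF_iota (k : ℕ) (h : PH (k + 2)) {x : F (k + 1)}
    (hx : h.1 = iota (k + 1) (zH (k + 1) x)) : fF k h = k01 (k + 1) x := by
  change f01 k (Th (k + 1) (cP (k + 2) h)) = _
  refine f01_conj ?_
  rw [Th_iota (h := zH (k + 1) x) (by change Chi (k + 2) h.1 = _; rw [hx]), chi_zH]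

private lemma fF_sq_z0 {k : ℕ} : (chiA 0 * chiA 0 : MulAut (F (k + 1))) (zF 0) =
    (zF 1 * zF 0)⁻¹ * zF 0 * (zF 1 * zF 0) := by
  have a0 : chiA 0 (zF 0 : F (k + 1)) = (zF 0)⁻¹ * zF 1 * zF 0 := by
    rw [chiA_z (by omega) (by omega)]
    rfl
  have a1 : chiA 0 (zF 1 : F (k + 1)) = zF 0 := by
    rw [chiA_z (by omega) (by omega)]
    rfl
  rw [MulAut.mul_apply, a0, map_mul, map_mul, map_inv, a0, a1]
  group

private lemma fF_sq_z1 {k : ℕ} : (chiA 0 * chiA 0 : MulAut (F (k + 1))) (zF 1) =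
    (zF 1 * zF 0)⁻¹ * zF 1 * (zF 1 * zF 0) := by
  have a0 : chiA 0 (zF 0 : F (k + 1)) = (zF 0)⁻¹ * zF 1 * zF 0 := by
    rw [chiA_z (by omega) (by omega)]
    rfl
  have a1 : chiA 0 (zF 1 : F (k + 1)) = zF 0 := by
    rw [chiA_z (by omega) (by omega)]
    rfl
  rw [MulAut.mul_apply, a1, a0]
  group

private lemma fF_sq_z {k i : ℕ} (h2 : 2 ≤ i) (hi : i ≤ k + 1) :
    (chiA 0 * chiA 0 : MulAut (F (k + 1))) (zF i) = zF i := by
  have h : chiA 0 (zF i : F (k + 1)) = zF i := by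
    rw [chiA_z (by omega) hi]
    unfold chiC
    rw [if_neg (by omega), if_neg (by omega)]
  rw [MulAut.mul_apply, h, h]

private lemma fF_f01_sq {k : ℕ} {α : PA (k + 1)} (hα : α.1 = chiA 0 * chiA 0) :
    f01 k α = (zF 1 * zF 0)⁻¹ := by
  have hk : ∀ x : F (k + 1), k01 (k + 1) (α.1 x) =
      (zF 1 * zF 0)⁻¹ * k01 (k + 1) x * (zF 1 * zF 0) := by
    intro x
    have h : (k01 (k + 1)).comp α.1.toMonoidHom =
        (MulAut.conj (zF 1 * zF 0 : F 1)⁻¹).toMonoidHom.comp (k01 (k + 1)) := by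
      refine homF_ext fun i hi => ?_
      change k01 (k + 1) (α.1 (zF i)) = MulAut.conj (zF 1 * zF 0 : F 1)⁻¹ (k01 (k + 1) (zF i))
      rw [MulAut.conj_apply, inv_inv, hα]
      rcases Nat.lt_or_ge i 2 with h2 | h2
      · rcases Nat.lt_or_ge i 1 with h1 | h1
        · obtain rfl : i = 0 := by omega
          rw [fF_sq_z0, map_mul, map_mul, map_inv, map_mul, k01_z0, k01_z1]
        · obtain rfl : i = 1 := by omega
          rw [fF_sq_z1, map_mul, map_mul, map_inv, map_mul, k01_z0, k01_z1]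
      · rw [fF_sq_z h2 hi, k01_z h2]
        group
    have h1 := DFunLike.congr_fun h x
    change k01 (k + 1) (α.1 x) = MulAut.conj (zF 1 * zF 0 : F 1)⁻¹ (k01 (k + 1) x) at h1
    rw [h1, MulAut.conj_apply, inv_inv]
  have h1 : (zF 1 * zF 0) * f01 k α = 1 := by
    refine F_center (k := 0) fun z => ?_
    obtain ⟨y, rfl⟩ := k01_surj k z
    have h2 := f01_spec α y
    rw [hk] at h2
    calc zF 1 * zF 0 * f01 k α * k01 (k + 1) y
        = zF 1 * zF 0 * (f01 k α * k01 (k + 1) y * (f01 k α)⁻¹) * f01 k α := by group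
      _ = k01 (k + 1) y * (zF 1 * zF 0 * f01 k α) := by rw [← h2]; group
  exact eq_inv_of_mul_eq_one_right h1

/-- piece P9: `a_1² = ι (a_0²)` (`iota`, `liftH_a`), so `Th (Chi (a_1²)) = Chi_{k+1} (a_0²)`
(`Th_iota`), which is conjugation by `(z_1 z_0)⁻¹` on `z_0, z_1` and trivial on the other `z_i`
(`chiA_z`, `chiC`); so `f01` of it is `(z_1 z_0)⁻¹` (`f01_spec` and uniqueness) -/
theorem fF_a1 (k : ℕ) (h : PH (k + 2)) (hx : h.1 = aH 1 * aH 1) :
    fF k h = (zF 1 * zF 0)⁻¹ := by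
  change f01 k (Th (k + 1) (cP (k + 2) h)) = _
  refine fF_f01_sq ?_
  have h1 : iota (k + 1) (aH 0 * aH 0) = (aH 1 * aH 1 : HB (k + 2)) := by
    rw [map_mul]
    unfold iota
    rw [liftH_a _ (by omega)]
  rw [Th_iota (h := aH 0 * aH 0) (by change Chi (k + 2) h.1 = _; rw [hx, h1]), map_mul]
  unfold Chi
  rw [liftH_a _ (by omega)]

end Pool.Agent.Helper38.BN
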